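import Pool.Agent.FTU.Stmts

set_option autoImplicit false

open MeasureTheory Complex ProbabilityTheory MvPolynomial

noncomputable section

namespace Pool.Agent.FTU.H97

open Pool.Agent.Helper49_Pauli
open Pool.Agent.MBX
open Pool.Agent.Loc (γn PB)

/-- Taylor remainder of the exponential -/
def Rm (M : ℕ) (s : ℝ) : ℂ :=
  cexp (s * I) - ∑ n ∈ Finset.range M, ((s : ℂ) * I) ^ n / (n.factorial : ℂ)

theorem hasDerivAt_Rm (M : ℕ) (s : ℝ) : HasDerivAt (Rm (M + 1)) (I * Rm M s) s := by
  have h0 : HasDerivAt (fun s : ℝ => (s : ℂ) * I) (1 * I) s :=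
    (Complex.ofRealCLM.hasDerivAt (x := s)).mul_const _
  have h1 := h0.cexp
  have h2 : HasDerivAt (fun s : ℝ => ∑ n ∈ Finset.range (M + 1), ((s : ℂ) * I) ^ n / (n.factorial : ℂ))
      (∑ n ∈ Finset.range (M + 1), ((n : ℂ) * ((s : ℂ) * I) ^ (n - 1) * (1 * I)) / (n.factorial : ℂ))
      s := by
    refine HasDerivAt.fun_sum fun n _ => ?_
    exact (h0.pow n).div_const _
  have h3 := h1.sub h2
  refine h3.congr_deriv ?_
  rw [Finset.sum_range_succ']
  simp only [Nat.cast_zero, zero_mul, zero_div, add_zero]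
  unfold Rm
  rw [mul_sub, Finset.mul_sum, one_mul, mul_comm (cexp _) I]
  congr 1
  refine Finset.sum_congr rfl fun n _ => ?_
  rw [Nat.add_sub_cancel, Nat.factorial_succ]
  have h5 : (n.factorial : ℂ) ≠ 0 := by exact_mod_cast n.factorial_ne_zero
  have h6 : ((n : ℂ) + 1) ≠ 0 := by exact_mod_cast n.succ_ne_zero
  push_cast
  field_simp

theorem Rm_bound (M : ℕ) (s : ℝ) : ‖Rm M s‖ ≤ |s| ^ M := by
  induction M generalizing s with
  | zero =>
    unfold Rm
    rw [Finset.sum_range_zero, sub_zero, Complex.norm_exp_ofReal_mul_I, pow_zero]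
  | succ M ih =>
    have h := Convex.norm_image_sub_le_of_norm_hasDerivWithin_le (f := Rm (M + 1))
      (f' := fun u => I * Rm M u) (s := Set.uIcc 0 s) (C := |s| ^ M) (x := 0) (y := s)
      (fun u _ => (hasDerivAt_Rm M u).hasDerivWithinAt)
      (fun u hu => by
        rw [norm_mul, Complex.norm_I, one_mul]
        refine (ih u).trans (pow_le_pow_left₀ (abs_nonneg _) ?_ _)
        rw [Set.mem_uIcc] at hu
        rcases hu with hu | hu
        · rw [abs_of_nonneg hu.1, abs_of_nonneg (hu.1.trans hu.2)]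
          exact hu.2
        · rw [abs_of_nonpos hu.2, abs_of_nonpos (hu.1.trans hu.2)]
          linarith [hu.1])
      (convex_uIcc 0 s) Set.left_mem_uIcc Set.right_mem_uIcc
    have h0 : Rm (M + 1) 0 = 0 := by
      unfold Rm
      rw [Finset.sum_range_succ']
      simp
    rw [h0, sub_zero, sub_zero, Real.norm_eq_abs] at h
    rw [pow_succ]
    exact h

theorem cos_taylor (M : ℕ) (b s : ℝ) :
    |Real.cos (b + s) - ∑ n ∈ Finset.range M, s ^ n / (n.factorial : ℝ) *
      Real.cos (b + (n : ℝ) * (Real.pi / 2))| ≤ |s| ^ M := by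
  have key : Real.cos (b + s) - ∑ n ∈ Finset.range M, s ^ n / (n.factorial : ℝ) *
      Real.cos (b + (n : ℝ) * (Real.pi / 2)) = (cexp (b * I) * Rm M s).re := by
    unfold Rm
    rw [mul_sub, Complex.sub_re, ← Complex.exp_add, Finset.mul_sum, Complex.re_sum]
    congr 1
    · rw [← add_mul, ← Complex.ofReal_add, Complex.exp_ofReal_mul_I_re]
    · refine Finset.sum_congr rfl fun n _ => ?_
      have e : cexp (b * I) * (((s : ℂ) * I) ^ n / (n.factorial : ℂ)) =
          ((s ^ n / (n.factorial : ℝ) : ℝ) : ℂ) *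
            cexp (((b + (n : ℝ) * (Real.pi / 2) : ℝ) : ℂ) * I) := by
        have e1 : cexp (((b + (n : ℝ) * (Real.pi / 2) : ℝ) : ℂ) * I) = cexp (b * I) * I ^ n := by
          have e2 : ((b + (n : ℝ) * (Real.pi / 2) : ℝ) : ℂ) * I =
              b * I + (n : ℂ) * (Real.pi / 2 * I) := by
            push_cast
            ring
          rw [e2, Complex.exp_add, Complex.exp_nat_mul, Complex.exp_pi_div_two_mul_I]
        rw [e1]
        push_cast
        rw [mul_pow]
        ring
      rw [e, Complex.re_ofReal_mul, Complex.exp_ofReal_mul_I_re]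
  rw [key]
  calc |(cexp (b * I) * Rm M s).re| ≤ ‖cexp (b * I) * Rm M s‖ := Complex.abs_re_le_norm _
    _ = ‖Rm M s‖ := by rw [norm_mul, Complex.norm_exp_ofReal_mul_I, one_mul]
    _ ≤ |s| ^ M := Rm_bound M s

theorem sum_double (M : ℕ) (A B : ℝ) (g : ℕ → ℝ) :
    (∑ p ∈ Finset.range M, ∑ q ∈ Finset.range M,
      if p + q < M then A ^ p * B ^ q / ((p.factorial : ℝ) * q.factorial) * g (p + q) else 0) =
    ∑ n ∈ Finset.range M, (A + B) ^ n / (n.factorial : ℝ) * g n := by
  rw [← Finset.sum_product', ← Finset.sum_filter]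
  rw [← Finset.sum_fiberwise_of_maps_to (s := (Finset.range M ×ˢ Finset.range M).filter
    (fun x => x.1 + x.2 < M)) (t := Finset.range M) (g := fun x : ℕ × ℕ => x.1 + x.2)
    (fun x hx => Finset.mem_range.2 (Finset.mem_filter.1 hx).2)]
  refine Finset.sum_congr rfl fun n hn => ?_
  rw [Finset.mem_range] at hn
  have e : ((Finset.range M ×ˢ Finset.range M).filter (fun x : ℕ × ℕ => x.1 + x.2 < M)).filter
      (fun x => x.1 + x.2 = n) = Finset.HasAntidiagonal.antidiagonal n := by
    ext ⟨p, q⟩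
    simp only [Finset.mem_filter, Finset.mem_product, Finset.mem_range, Finset.HasAntidiagonal.mem_antidiagonal]
    omega
  rw [e, (Commute.all A B).add_pow', Finset.sum_div, Finset.sum_mul]
  refine Finset.sum_congr rfl fun x hx => ?_
  rw [Finset.HasAntidiagonal.mem_antidiagonal] at hx
  rw [hx]
  have h1 : (x.1.factorial : ℝ) ≠ 0 := by exact_mod_cast x.1.factorial_ne_zero
  have h2 : (x.2.factorial : ℝ) ≠ 0 := by exact_mod_cast x.2.factorial_ne_zero
  have h3 : (n.factorial : ℝ) ≠ 0 := by exact_mod_cast n.factorial_ne_zero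
  have h4 : ((n.choose x.1 : ℕ) : ℝ) * x.1.factorial * x.2.factorial = n.factorial := by
    have h5 := Nat.choose_mul_factorial_mul_factorial (n := n) (k := x.1) (by omega)
    have h6 : n - x.1 = x.2 := by omega
    rw [h6] at h5
    exact_mod_cast h5
  rw [nsmul_eq_mul]
  rw [← h4] at h3 ⊢
  have h5 : ((n.choose x.1 : ℕ) : ℝ) ≠ 0 := by
    intro h
    rw [h] at h3
    simp at h3
  field_simp

theorem rmb : RmbStmt := by
  intro ι S i hk he M x c
  have hs : ∀ y : ℝ, |S.k i 0 * x 0 + S.k i 1 * x 1| ≤ |x 0| + |x 1| := by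
    intro _
    refine (abs_add_le _ _).trans ?_
    rw [abs_mul, abs_mul]
    have h0 := mul_le_mul_of_nonneg_right (hk 0) (abs_nonneg (x 0))
    have h1 := mul_le_mul_of_nonneg_right (hk 1) (abs_nonneg (x 1))
    linarith
  have e : S.rm M i x c = S.c i * S.e i c * (Real.cos ((S.k i 2 * x 2 - S.t i) +
      (S.k i 0 * x 0 + S.k i 1 * x 1)) - ∑ n ∈ Finset.range M,
        (S.k i 0 * x 0 + S.k i 1 * x 1) ^ n / (n.factorial : ℝ) *
          Real.cos ((S.k i 2 * x 2 - S.t i) + (n : ℝ) * (Real.pi / 2))) := by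
    rw [← sum_double M (S.k i 0 * x 0) (S.k i 1 * x 1)
      (fun n => Real.cos ((S.k i 2 * x 2 - S.t i) + (n : ℝ) * (Real.pi / 2)))]
    unfold Sys.rm
    rw [mul_sub, Finset.mul_sum]
    congr 1
    · have e1 : dot (S.k i) x - S.t i = (S.k i 2 * x 2 - S.t i) +
          (S.k i 0 * x 0 + S.k i 1 * x 1) := by
        unfold dot
        rw [Fin.sum_univ_three]
        ring
      rw [e1]
      ring
    · refine Finset.sum_congr rfl fun p _ => ?_
      rw [Finset.mul_sum]
      refine Finset.sum_congr rfl fun q _ => ?_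
      split_ifs
      · unfold Sys.jm
        rw [add_zero, pow_zero, mul_pow, mul_pow]
        ring
      · rw [mul_zero]
  rw [e, abs_mul, abs_mul]
  have h1 := (cos_taylor M (S.k i 2 * x 2 - S.t i) (S.k i 0 * x 0 + S.k i 1 * x 1)).trans
    (pow_le_pow_left₀ (abs_nonneg _) (hs 0) M)
  calc |S.c i| * |S.e i c| * _ ≤ |S.c i| * 1 * (|x 0| + |x 1|) ^ M := by
        refine mul_le_mul ?_ h1 (abs_nonneg _) (by positivity)
        exact mul_le_mul_of_nonneg_left (he c) (abs_nonneg _)
    _ = _ := by ring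

end Pool.Agent.FTU.H97
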